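import Pool.Agent.Run7.h296.Fo

/-!
Many simultaneous primes in admissible sets of linear forms, the other values being almost primes, uniformly
in the coefficients.

Let `a_i x + b_i` (`i` in a set of `k` elements) be an admissible set of forms, `P` the product of the
`a_i`, and `S` any subset of the forms. Then some `n` with `0 ≤ n ≤ γ P ^ A` makes all the numbers
`a_i n + b_i`, `i ∈ S`, products of at most `R` primes which are all larger than `P ^ B`, and at least
`c (g / |S|) log |S|` of them prime. Here `c > 0` is absolute, `A`, `R` and `γ` depend on `k` and on the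
arbitrary exponent `B` only, and `g` is the number of the forms in `S` which are not affected by a possible
Siegel zero: for the scale `2 ^ 2 ^ j ≤ P < 2 ^ 2 ^ (j + 1)` of `P` there is one exceptional modulus
`Q (j + D)` with its real primitive character, and the form `a_i x + b_i` is counted by `g` unless
`Q (j + D)` divides `D a_i`; it is also counted if `Q (j + D)` divides `a_i` and the character is `-1` at
`b_i`. The sequence of the exceptional moduli does not depend on `k`, and they are larger than every power of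
`log P`.

So `g = |S|` if no `a_i` is a multiple of `Q (j + D) / gcd (D, Q (j + D))`, and then `c log |S|` of the
values are prime. Two forms with `gcd (a_i, a_l) = 1` cannot both be affected, since `D < Q (j + D)`: for
pairwise coprime `a_i` one has `g ≥ |S| - 1` for all `P`, and there are no exceptions. For general `a_i` one
may take for `S` the set of all the forms which are not affected: `c log g` of the `g` values are prime.
-/

set_option autoImplicit false

open Finset

namespace Run7.h296.Kept.ManySimultaneousPrimes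

open Classical in
theorem result : ∃ (c : ℝ) (Q : ℕ → ℕ) (χ : ∀ i : ℕ, DirichletCharacter ℂ (Q i)), 0 < c ∧
    (∀ i, 1 < Q i ∧ (χ i) ^ 2 = 1 ∧ (χ i).IsPrimitive) ∧
    (∀ B : ℕ, ∀ᶠ i in Filter.atTop, 2 ^ (B * i) ≤ Q i) ∧
    ∀ k B : ℕ, ∃ (A D R : ℕ) (γ : ℝ), 0 < γ ∧ 0 < D ∧ (∀ j, D < Q (j + D)) ∧
    ∀ a b : Fin k → ℕ, (∀ i, 1 ≤ b i ∧ b i < a i) → Function.Injective (fun i => (a i, b i)) →
    (∀ p : ℕ, p.Prime → ∃ n : ℤ, ∀ i, ¬ (p : ℤ) ∣ a i * n + b i) →
    ∀ j : ℕ, 2 ^ 2 ^ j ≤ ∏ i, a i → ∏ i, a i < 2 ^ 2 ^ (j + 1) →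
    ∀ S : Finset (Fin k), ∃ n : ℕ, (n : ℝ) ≤ γ * ((∏ i, a i : ℕ) : ℝ) ^ A ∧
      (∀ i ∈ S, ArithmeticFunction.cardFactors (a i * n + b i) ≤ R ∧
        ∀ p : ℕ, p.Prime → p ∣ a i * n + b i → (∏ i, a i) ^ B < p) ∧
      ⌊c * (((S.filter (fun i : Fin k => ¬ Q (j + D) ∣ D * a i ∨
        (Q (j + D) ∣ a i ∧ χ (j + D) ((b i : ℕ) : ZMod (Q (j + D))) = -1))).card : ℝ) / S.card) *
          Real.log S.card⌋₊ ≤
      (S.filter (fun i : Fin k => (a i * n + b i).Prime)).card :=
  Run7.h296.main_thm

end Run7.h296.Kept.ManySimultaneousPrimes
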