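import Pool.Agent.Run7.h296.S10

/-!
Arithmetic progressions at which one prescribed form is prime and the others are almost primes, uniformly in
the coefficients.

Let `a_i x + b_i` (`i < k`) be an admissible set of forms with `1 ≤ b_i < a_i`, and `P` any common multiple
of the `a_i`. Let `i₀` be a form which is not affected by a possible Siegel zero: for the scale
`2 ^ 2 ^ j ≤ P < 2 ^ 2 ^ (j + 1)` of `P` there is one exceptional modulus `Q (j + D)` with its real primitive
character, and it is assumed that `Q (j + D)` does not divide `D a_{i₀}`, or that `Q (j + D)` divides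
`a_{i₀}` and the character is `-1` at `b_{i₀}`. Then there is an arithmetic progression `n + h d`
(`h < ℓ`) with `n ≤ γ P ^ A` and `1 ≤ d ≤ γ (log P) ^ C` such that all the numbers
`a_{i₀} (n + h d) + b_{i₀}` are prime, and all the numbers `a_i (n + h d) + b_i` are products of at most `R`
primes which are all larger than `P ^ B`. The constants `A`, `C`, `D`, `R`, `γ` depend on `k`, on the length
`ℓ` and on the arbitrary exponent `B` only; the exceptional moduli are larger than every power of `log P`.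

For `k = 1`, `P = a`: the primes in the class `b` modulo `a` below a fixed power of `a` contain arithmetic
progressions of length `ℓ` (with difference at most `a (log a) ^ C`), a common generalisation of the theorems
of Linnik and of Green and Tao (but for the exceptional classes). For `k ≥ 2` the primes are such that
the other forms are almost primes (Rényi, Chen).
-/

set_option autoImplicit false

open Finset

namespace Pool.Agent.Results.MP_746f10_nt.PrescribedPrimeProgressions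

theorem result : ∃ (Q : ℕ → ℕ) (χ : ∀ i : ℕ, DirichletCharacter ℂ (Q i)),
    (∀ i, 1 < Q i ∧ (χ i) ^ 2 = 1 ∧ (χ i).IsPrimitive) ∧
    (∀ B : ℕ, ∀ᶠ i in Filter.atTop, 2 ^ (B * i) ≤ Q i) ∧
    ∀ k B ℓ : ℕ, ∃ (A C D R : ℕ) (γ : ℝ), 0 < γ ∧ 0 < D ∧ (∀ j, D < Q (j + D)) ∧
    ∀ (a b : Fin k → ℕ) (P : ℕ), (∀ i, 1 ≤ b i ∧ b i < a i) →
    Function.Injective (fun i => (a i, b i)) →
    (∀ p : ℕ, p.Prime → ∃ n : ℤ, ∀ i, ¬ (p : ℤ) ∣ a i * n + b i) → (∀ i, a i ∣ P) →
    ∀ j : ℕ, 2 ^ 2 ^ j ≤ P → P < 2 ^ 2 ^ (j + 1) →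
    ∀ i₀ : Fin k, (¬ Q (j + D) ∣ D * a i₀ ∨
      (Q (j + D) ∣ a i₀ ∧ χ (j + D) ((b i₀ : ℕ) : ZMod (Q (j + D))) = -1)) →
    ∃ n d : ℕ, (n : ℝ) ≤ γ * (P : ℝ) ^ A ∧ 1 ≤ d ∧ (d : ℝ) ≤ γ * Real.log P ^ C ∧
      ∀ h < ℓ, (a i₀ * (n + h * d) + b i₀).Prime ∧
        ∀ i, ArithmeticFunction.cardFactors (a i * (n + h * d) + b i) ≤ R ∧
          ∀ p : ℕ, p.Prime → p ∣ a i * (n + h * d) + b i → P ^ B < p := by
  obtain ⟨c, Q, χ, hc, hQ, hgrow, hmain⟩ := Run7.h296.main_fam
  refine ⟨Q, χ, hQ, hgrow, fun k B ℓ => ?_⟩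
  obtain ⟨A, C, D, R, γ, hγ, hD, hDQ, h⟩ := hmain k B ℓ
  refine ⟨A, C, D, R, γ, hγ, hD, hDQ, ?_⟩
  intro a b P hab hinj hadm haP j hj hj' i₀ hi₀
  obtain ⟨n, d, U, h1, h2, h3, h4, h5, -, h6⟩ := h k le_rfl a b P hab hinj hadm haP j hj hj' {i₀}
    (fun i hi => by
      rw [mem_singleton] at hi
      subst hi
      exact hi₀)
  obtain ⟨x, hx⟩ := h5 (singleton_nonempty i₀)
  have hxi : x = i₀ := mem_singleton.1 (h4 hx)
  subst hxi
  exact ⟨n, d, h1, h2, h3, fun t ht => ⟨(h6 t ht).1 x hx, (h6 t ht).2⟩⟩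

end Pool.Agent.Results.MP_746f10_nt.PrescribedPrimeProgressions
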