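import Pool.Agent.Run7.h296.S10

/-!
Arithmetic progressions at which many linear forms are simultaneously prime and the other ones are almost
primes, uniformly in the coefficients.

Let `a_i x + b_i` (`i < s`, `s ≤ k`) be an admissible set of forms and `P` any common multiple of the `a_i`.
Let `G` be a set of forms which are not affected by a possible Siegel zero: for the scale
`2 ^ 2 ^ j ≤ P < 2 ^ 2 ^ (j + 1)` of `P` there is one exceptional modulus `Q (j + D)` with its real primitive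
character, and the form `a_i x + b_i` may be in `G` if `Q (j + D)` does not divide `D a_i`, or if `Q (j + D)`
divides `a_i` and the character is `-1` at `b_i`. Then there are an arithmetic progression `n + h d`
(`h < ℓ`) with `n ≤ γ P ^ A` and `1 ≤ d ≤ γ (log P) ^ C`, and a subset `U` of `G` with at least
`c (|G| / s) log s` elements, such that all the numbers `a_i (n + h d) + b_i` with `i ∈ U`, `h < ℓ` are
prime, and all the numbers `a_i (n + h d) + b_i` with `i < s`, `h < ℓ` are products of at most `R` primes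
which are all larger than `P ^ B`. Here `c > 0` is absolute, and `A`, `C`, `D`, `R`, `γ` depend on `k`, on
the length `ℓ` and on the arbitrary exponent `B` only. The sequence of the exceptional moduli does not depend
on `k`, `ℓ`, and they are larger than every power of `log P`.

For `ℓ = 1` this is the theorem on many simultaneous primes, uniform in the coefficients; two forms with
`gcd (a_i, a_l) = 1` cannot both be affected, since `D < Q (j + D)`.
-/

set_option autoImplicit false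

open Finset

namespace Pool.Agent.Results.MP_746f10_nt.ProgressionsOfManyPrimes

theorem result : ∃ (c : ℝ) (Q : ℕ → ℕ) (χ : ∀ i : ℕ, DirichletCharacter ℂ (Q i)), 0 < c ∧
    (∀ i, 1 < Q i ∧ (χ i) ^ 2 = 1 ∧ (χ i).IsPrimitive) ∧
    (∀ B : ℕ, ∀ᶠ i in Filter.atTop, 2 ^ (B * i) ≤ Q i) ∧
    ∀ k B ℓ : ℕ, ∃ (A C D R : ℕ) (γ : ℝ), 0 < γ ∧ 0 < D ∧ (∀ j, D < Q (j + D)) ∧
    ∀ s ≤ k, ∀ (a b : Fin s → ℕ) (P : ℕ), (∀ i, 1 ≤ b i ∧ b i < a i) →
    Function.Injective (fun i => (a i, b i)) →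
    (∀ p : ℕ, p.Prime → ∃ n : ℤ, ∀ i, ¬ (p : ℤ) ∣ a i * n + b i) → (∀ i, a i ∣ P) →
    ∀ j : ℕ, 2 ^ 2 ^ j ≤ P → P < 2 ^ 2 ^ (j + 1) →
    ∀ G : Finset (Fin s), (∀ i ∈ G, ¬ Q (j + D) ∣ D * a i ∨
      (Q (j + D) ∣ a i ∧ χ (j + D) ((b i : ℕ) : ZMod (Q (j + D))) = -1)) →
    ∃ (n d : ℕ) (U : Finset (Fin s)), (n : ℝ) ≤ γ * (P : ℝ) ^ A ∧ 1 ≤ d ∧
      (d : ℝ) ≤ γ * Real.log P ^ C ∧ U ⊆ G ∧
      ⌊c * ((G.card : ℝ) / s) * Real.log s⌋₊ ≤ U.card ∧
      ∀ h < ℓ, (∀ i ∈ U, (a i * (n + h * d) + b i).Prime) ∧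
        ∀ i, ArithmeticFunction.cardFactors (a i * (n + h * d) + b i) ≤ R ∧
          ∀ p : ℕ, p.Prime → p ∣ a i * (n + h * d) + b i → P ^ B < p := by
  obtain ⟨c, Q, χ, hc, hQ, hgrow, hmain⟩ := Run7.h296.main_fam
  refine ⟨c, Q, χ, hc, hQ, hgrow, fun k B ℓ => ?_⟩
  obtain ⟨A, C, D, R, γ, hγ, hD, hDQ, h⟩ := hmain k B ℓ
  refine ⟨A, C, D, R, γ, hγ, hD, hDQ, ?_⟩
  intro s hs a b P hab hinj hadm haP j hj hj' G hG
  obtain ⟨n, d, U, h1, h2, h3, h4, -, h5, h6⟩ := h s hs a b P hab hinj hadm haP j hj hj' G hG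
  exact ⟨n, d, U, h1, h2, h3, h4, h5, h6⟩

end Pool.Agent.Results.MP_746f10_nt.ProgressionsOfManyPrimes
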